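import Pool.Agent.V11141.LR.Graph

/-!
# Graphs without the cube graph whose exponent is close to `8 / 5` have large rank

Let `G` be a graph on `n` vertices that does not contain the graph `Q_8` of the three-dimensional cube,
and let `M` be a matrix of rank `ρ` over any field whose entries outside of the diagonal are nonzero
exactly at the pairs of adjacent vertices (the diagonal is arbitrary). (1) If `ρ ≥ 1` then
`e(G) ≤ 20 (16 ρ) ^ 3 n`. (2) So if `G` has `c n ^ (8 / 5 - δ)` edges then `ρ ≥ c' n ^ (1 / 5 - δ / 3)`;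
as `δ → 0` this is a necessary condition on the graphs asked for in Q1. (3) If the adjacency of two
vertices only depends on the value of a bilinear form `∑ a_i(u) b_i(v)` with `d` terms over a finite
field with `q` elements then `(d + 1) ^ (q - 1)` has the same lower bound; the vectors are arbitrary
functions of the vertices.

Only the absence of `K_{4,4}` is used; see `Results/MP_f4a4e4_co/LowRankSupports.lean` for the theorem
on matrices and the idea of the proof.
-/

set_option autoImplicit false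

namespace Pool.Agent.Results.MP_0774fe_co.LowRankSupports

open Finset

/-- The graph `Q_8` of the cube: vertices are adjacent if they differ in exactly one coordinate. -/
def cube : SimpleGraph (Fin 3 → Bool) where
  Adj x y := (univ.filter fun i => x i ≠ y i).card = 1
  symm := by
    constructor
    intro x y h
    rw [← h]
    congr 1
    ext i
    simp [eq_comm]
  loopless := by
    constructor
    intro x h
    simp at h

/-- For `u ≠ v` the entry `M u v` is nonzero if and only if `u` and `v` are adjacent. -/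
def Fits {V F : Type} [Field F] (M : Matrix V V F) (G : SimpleGraph V) : Prop :=
  ∀ u v, u ≠ v → (M u v ≠ 0 ↔ G.Adj u v)

/-- the index of a vertex of the cube in its class -/
def idx (x : Fin 3 → Bool) : Fin 4 :=
  if x 0 then (if x 1 then 3 else 2) else (if x 1 then 1 else 0)

/-- the vertex of `K_{4,4}` -/
def emb (x : Fin 3 → Bool) : Fin 4 ⊕ Fin 4 :=
  if xor (x 0) (xor (x 1) (x 2)) then Sum.inr (idx x) else Sum.inl (idx x)

theorem cube_in : cube.IsContained (completeBipartiteGraph (Fin 4) (Fin 4)) := by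
  refine ⟨⟨⟨emb, ?_⟩, ?_⟩⟩
  · have h : ∀ x y : Fin 3 → Bool, (univ.filter fun i => x i ≠ y i).card = 1 →
        (emb x).isLeft = !(emb y).isLeft := by decide
    intro x y hxy
    have h1 := h x y hxy
    rcases hx : emb x with a | a <;> rcases hy : emb y with b | b <;> rw [hx, hy] at h1 <;>
      simp at h1 ⊢
  · have h : ∀ x y : Fin 3 → Bool, emb x = emb y → x = y := by decide
    exact h

theorem rank_lower (r : ℕ) (hr : 2 ≤ r) (δ c : ℝ) (hc : 0 < c) :
    ∃ c' : ℝ, 0 < c' ∧
    ∀ (V F : Type) [Fintype V] [Nonempty V] [Field F] (G : SimpleGraph V) (M : Matrix V V F),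
    Fits M G →
    (completeBipartiteGraph (Fin r) (Fin r)).Free G →
    c * (Fintype.card V : ℝ) ^ (2 - 1 / (r : ℝ) - δ) ≤ Nat.card G.edgeSet →
    c' * (Fintype.card V : ℝ) ^ (1 / (r : ℝ) - δ / ((r : ℝ) - 1)) ≤ (M.rank : ℝ) := by
  have hr0 : (0 : ℝ) < r := by
    have : 0 < r := by omega
    exact_mod_cast this
  have hr1 : (0 : ℝ) < (r : ℝ) - 1 := by
    have : (2 : ℝ) ≤ r := by exact_mod_cast hr
    linarith
  set b : ℝ := c / (5 * r) with hb
  have hb0 : 0 < b := by positivity
  refine ⟨b ^ (1 / ((r : ℝ) - 1)) / (4 * r), by positivity, ?_⟩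
  intro V F _ _ _ G M hM hfree he
  set n := Fintype.card V with hn
  have hn0 : 0 < n := Fintype.card_pos
  have hnR : (0 : ℝ) < n := by exact_mod_cast hn0
  have hrk : 1 ≤ M.rank := by
    by_contra h0
    have h1 : M.rank = 0 := by omega
    have h2 : M = 0 := by
      have h3 := Matrix.rank_eq_finrank_span_row M
      rw [h1] at h3
      have h4 := Submodule.finrank_eq_zero.1 h3.symm
      rw [Submodule.span_eq_bot] at h4
      ext u v
      exact congrFun (h4 (M.row u) ⟨u, rfl⟩) v
    have h3 : Nat.card G.edgeSet = 0 := by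
      have : G = ⊥ := by
        ext u v
        constructor
        · intro huv
          have h4 := (hM u v huv.ne).2 huv
          rw [h2] at h4
          exact absurd rfl h4
        · intro huv
          exact absurd huv (by simp)
      rw [this]
      simp
    rw [h3, Nat.cast_zero] at he
    have : 0 < c * (n : ℝ) ^ (2 - 1 / (r : ℝ) - δ) := by positivity
    linarith
  have hg := Pool.Agent.V11141.LR.graph_bound G M (by omega : 1 ≤ r) hrk le_rfl hM hfree
  set X : ℝ := 4 * r * M.rank with hX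
  have hrkR : (1 : ℝ) ≤ M.rank := by exact_mod_cast hrk
  have hX0 : 0 < X := by positivity
  have h1 : (Nat.card G.edgeSet : ℝ) ≤ 5 * r * X ^ (r - 1) * n := by
    rw [hX]
    exact_mod_cast hg
  have h2 : (n : ℝ) ^ (2 - 1 / (r : ℝ) - δ) = (n : ℝ) ^ (1 - 1 / (r : ℝ) - δ) * n := by
    rw [show (2 : ℝ) - 1 / r - δ = (1 - 1 / r - δ) + 1 by ring, Real.rpow_add hnR, Real.rpow_one]
  have h3 : b * (n : ℝ) ^ (1 - 1 / (r : ℝ) - δ) ≤ X ^ (r - 1) := by
    have h4 := he.trans h1
    rw [h2, ← mul_assoc] at h4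
    have h5 := le_of_mul_le_mul_right h4 hnR
    have h6 : c = 5 * r * b := by rw [hb]; field_simp
    rw [h6, mul_assoc] at h5
    exact le_of_mul_le_mul_left h5 (by positivity)
  have h4 : X ^ (r - 1) = X ^ ((r : ℝ) - 1) := by
    rw [← Real.rpow_natCast, Nat.cast_sub (by omega), Nat.cast_one]
  have h5 : (b ^ (1 / ((r : ℝ) - 1)) * (n : ℝ) ^ (1 / (r : ℝ) - δ / ((r : ℝ) - 1))) ^
      ((r : ℝ) - 1) = b * (n : ℝ) ^ (1 - 1 / (r : ℝ) - δ) := by
    rw [Real.mul_rpow (by positivity) (by positivity), ← Real.rpow_mul hb0.le,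
      ← Real.rpow_mul hnR.le, one_div_mul_cancel hr1.ne', Real.rpow_one]
    congr 2
    field_simp
  have h6 : b ^ (1 / ((r : ℝ) - 1)) * (n : ℝ) ^ (1 / (r : ℝ) - δ / ((r : ℝ) - 1)) ≤ X := by
    rw [← Real.rpow_le_rpow_iff (by positivity) hX0.le hr1, h5, ← h4]
    exact h3
  rw [div_mul_eq_mul_div, div_le_iff₀ (by positivity)]
  rw [hX] at h6
  linarith

theorem result :
    -- (1) graphs without the cube graph
    (∀ (V F : Type) [Fintype V] [Field F] (G : SimpleGraph V) (M : Matrix V V F) (ρ : ℕ),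
      1 ≤ ρ → M.rank ≤ ρ → Fits M G → cube.Free G →
      Nat.card G.edgeSet ≤ 20 * (16 * ρ) ^ 3 * Fintype.card V) ∧
    -- (2) graphs of exponent `8 / 5 - δ`
    (∀ δ c : ℝ, 0 < c → ∃ c' : ℝ, 0 < c' ∧
      ∀ (V F : Type) [Fintype V] [Nonempty V] [Field F] (G : SimpleGraph V) (M : Matrix V V F),
      Fits M G → cube.Free G →
      c * (Fintype.card V : ℝ) ^ (8 / 5 - δ) ≤ Nat.card G.edgeSet →
      c' * (Fintype.card V : ℝ) ^ (1 / 5 - δ / 3) ≤ (M.rank : ℝ)) ∧
    -- (3) adjacency given by the values of a bilinear form over a finite field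
    (∀ δ c : ℝ, 0 < c → ∃ c' : ℝ, 0 < c' ∧
      ∀ (V F : Type) [Fintype V] [Nonempty V] [Field F] [Fintype F] (d : ℕ) (a b : V → Fin d → F)
        (A : Set F) (G : SimpleGraph V), (∀ u v, G.Adj u v ↔ u ≠ v ∧ ∑ i, a u i * b v i ∈ A) →
      cube.Free G →
      c * (Fintype.card V : ℝ) ^ (8 / 5 - δ) ≤ Nat.card G.edgeSet →
      c' * (Fintype.card V : ℝ) ^ (1 / 5 - δ / 3) ≤ ((d : ℝ) + 1) ^ (Fintype.card F - 1)) := by
  have h2 : ∀ δ c : ℝ, 0 < c → ∃ c' : ℝ, 0 < c' ∧
      ∀ (V F : Type) [Fintype V] [Nonempty V] [Field F] (G : SimpleGraph V) (M : Matrix V V F),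
      Fits M G → cube.Free G →
      c * (Fintype.card V : ℝ) ^ (8 / 5 - δ) ≤ Nat.card G.edgeSet →
      c' * (Fintype.card V : ℝ) ^ (1 / 5 - δ / 3) ≤ (M.rank : ℝ) := by
    intro δ c hc
    obtain ⟨c', hc', h⟩ := rank_lower 4 (by norm_num) (3 / 20 + δ) c hc
    refine ⟨c', hc', ?_⟩
    intro V F _ _ _ G M hM hfree he
    have h1 := h V F G M hM (fun h' => hfree (cube_in.trans h')) (by
      rw [show (2 : ℝ) - 1 / ((4 : ℕ) : ℝ) - (3 / 20 + δ) = 8 / 5 - δ by push_cast; ring]
      exact he)
    rwa [show (1 : ℝ) / ((4 : ℕ) : ℝ) - (3 / 20 + δ) / (((4 : ℕ) : ℝ) - 1) = 1 / 5 - δ / 3 by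
      push_cast; ring] at h1
  refine ⟨?_, h2, ?_⟩
  · intro V F _ _ G M ρ hρ hrank hM hfree
    have h := Pool.Agent.V11141.LR.graph_bound G M (r := 4) (by norm_num) hρ hrank hM
      (fun h' => hfree (cube_in.trans h'))
    simpa using h
  · intro δ c hc
    obtain ⟨c', hc', h⟩ := h2 δ c hc
    refine ⟨c', hc', ?_⟩
    intro V F _ _ _ _ d a b A G hG hfree he
    obtain ⟨g, hg1, hg2⟩ := Pool.Agent.V11141.LR.exists_poly A
    have h1 := h V F G (Matrix.of (fun x y => g.eval (∑ i, a x i * b y i))) (by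
      intro u v huv
      rw [hG, Matrix.of_apply, hg2]
      exact ⟨fun h => ⟨huv, h⟩, fun h => h.2⟩) hfree he
    have h2 := Pool.Agent.V11141.LR.rank_poly g hg1 a b
    refine h1.trans ?_
    exact_mod_cast h2

end Pool.Agent.Results.MP_0774fe_co.LowRankSupports
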